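import Mathlib

/-!
A transmission-regular connected graph that is distance cospectral with a connected graph
that is not transmission-regular.  Both graphs have 20 vertices and are obtained from small
graphs by replacing each vertex by an independent set.

* `Γ`: 8 classes of sizes 3,3,3,1,1,3,3,3; it is 10-regular of diameter 2, all transmissions 28.
* `Ω`: 6 classes of sizes 1,1,6,6,3,3; diameter 4, transmissions 40, 40 and 26 (18 times).
-/

namespace Pool.Agent.Results.MP_e517fb_co.CospectralPair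

open Matrix

/-- The distance matrix of a graph on `Fin n`, as a real matrix. -/
noncomputable def distMatrix {n : ℕ} (G : SimpleGraph (Fin n)) : Matrix (Fin n) (Fin n) ℝ :=
  Matrix.of fun u v => (G.dist u v : ℝ)

section Generic

variable {V : Type*} (G : SimpleGraph V) (d : V → V → ℕ)

lemma exists_walk (h0 : ∀ u v, d u v = 0 ↔ u = v)
    (h2 : ∀ u v, u ≠ v → ∃ w, G.Adj w v ∧ d u w + 1 = d u v) (u : V) :
    ∀ (k : ℕ) (v : V), d u v = k → ∃ p : G.Walk u v, p.length = k := by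
  intro k
  induction k with
  | zero =>
    intro v hv
    obtain rfl := (h0 u v).1 hv
    exact ⟨SimpleGraph.Walk.nil, rfl⟩
  | succ k ih =>
    intro v hv
    have huv : u ≠ v := fun h => by
      have := (h0 u v).2 h
      omega
    obtain ⟨w, hw, hd⟩ := h2 u v huv
    obtain ⟨p, hp⟩ := ih w (by omega)
    exact ⟨p.concat hw, by simp [hp]⟩

lemma le_length (h0 : ∀ u v, d u v = 0 ↔ u = v)
    (h1 : ∀ u v w, G.Adj u v → d u w ≤ d v w + 1) {u v : V} (p : G.Walk u v) :
    d u v ≤ p.length := by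
  induction p with
  | nil => simp [(h0 _ _).2 rfl]
  | cons h p ih =>
    simp only [SimpleGraph.Walk.length_cons]
    exact (h1 _ _ _ h).trans (by omega)

lemma dist_eq (h0 : ∀ u v, d u v = 0 ↔ u = v)
    (h1 : ∀ u v w, G.Adj u v → d u w ≤ d v w + 1)
    (h2 : ∀ u v, u ≠ v → ∃ w, G.Adj w v ∧ d u w + 1 = d u v) (u v : V) :
    G.dist u v = d u v := by
  obtain ⟨p, hp⟩ := exists_walk G d h0 h2 u _ v rfl
  apply le_antisymm
  · exact hp ▸ G.dist_le p
  · obtain ⟨q, hq⟩ := SimpleGraph.Reachable.exists_walk_length_eq_dist (G := G) ⟨p⟩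
    exact hq ▸ le_length G d h0 h1 q

lemma connected_of [Nonempty V] (h0 : ∀ u v, d u v = 0 ↔ u = v)
    (h2 : ∀ u v, u ≠ v → ∃ w, G.Adj w v ∧ d u w + 1 = d u v) : G.Connected := by
  refine ⟨fun u v => ?_⟩
  obtain ⟨p, -⟩ := exists_walk G d h0 h2 u _ v rfl
  exact ⟨p⟩

end Generic

/-- Table lookup. -/
def look {α : Type} [Zero α] (t : List (List α)) (i j : ℕ) : α := (t.getD i []).getD j 0

/-- Class of a vertex of `Γ`. -/
def cls1 (u : Fin 20) : ℕ := [0, 0, 0, 1, 1, 1, 2, 2, 2, 3, 4, 5, 5, 5, 6, 6, 6, 7, 7, 7].getD u 0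

/-- Class of a vertex of `Ω`. -/
def cls2 (u : Fin 20) : ℕ := [0, 1, 2, 2, 2, 2, 2, 2, 3, 3, 3, 3, 3, 3, 4, 4, 4, 5, 5, 5].getD u 0

/-- The matrix `D + 2 I` of `Γ`. -/
def m1 (u v : Fin 20) : ℕ :=
  look [[2, 2, 2, 2, 1, 1, 1, 1], [2, 2, 1, 1, 2, 2, 1, 1], [2, 1, 2, 1, 2, 1, 2, 1],
    [2, 1, 1, 2, 1, 2, 2, 1], [1, 2, 2, 1, 2, 1, 1, 2], [1, 2, 1, 2, 1, 2, 1, 2],
    [1, 1, 2, 2, 1, 1, 2, 2], [1, 1, 1, 1, 2, 2, 2, 2]] (cls1 u) (cls1 v)

/-- The matrix `D + 2 I` of `Ω`. -/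
def m2 (u v : Fin 20) : ℕ :=
  look [[2, 4, 2, 2, 3, 1], [4, 2, 2, 2, 1, 3], [2, 2, 2, 1, 1, 1], [2, 2, 1, 2, 1, 1],
    [3, 1, 1, 1, 2, 2], [1, 3, 1, 1, 2, 2]] (cls2 u) (cls2 v)

/-- First factor. -/
def fa (u v : Fin 20) : ℤ :=
  look [[-9, -3, -42, 66, -40, -32], [-3, -9, -17, 19, -10, -18], [-3, -9, -29, 43, -22, -30],
    [-33, 21, -4, -4, -22, 14], [21, -33, -4, -4, 14, -22], [-9, -3, 21, -51, 14, 22],
    [-9, -3, 9, -27, 2, 10], [-3, -9, 34, -74, 32, 24]] (cls1 u) (cls2 v)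

/-- Second factor. -/
def fb (u v : Fin 20) : ℤ :=
  look [[-37, -17, 55, -13, -41, 35, -37, -17], [-17, -37, 35, -41, -13, 55, -17, -37],
    [-4, -19, 3, 0, 0, -27, 19, 4], [0, -1, -11, 0, 0, -13, 1, 0],
    [8, 16, -32, -8, 8, 8, -16, -8], [0, 24, -24, 8, -8, 0, -24, 0]] (cls2 u) (cls1 v)

/-- The graph whose edges are the pairs where the table has value `1`. -/
def gr (m : Fin 20 → Fin 20 → ℕ) (hs : ∀ u v, m u v = 1 → m v u = 1) (hl : ∀ u, m u u ≠ 1) :
    SimpleGraph (Fin 20) where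
  Adj u v := m u v = 1
  symm := ⟨hs⟩
  loopless := ⟨hl⟩

/-- The transmission-regular graph. -/
def G1 : SimpleGraph (Fin 20) := gr m1 (by decide +kernel) (by decide +kernel)

/-- The graph that is not transmission-regular. -/
def G2 : SimpleGraph (Fin 20) := gr m2 (by decide +kernel) (by decide +kernel)

/-- The distance function read off from a table. -/
def dd (m : Fin 20 → Fin 20 → ℕ) (u v : Fin 20) : ℕ := if u = v then 0 else m u v

lemma a0 : ∀ u v, dd m1 u v = 0 ↔ u = v := by decide +kernel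
lemma a1 : ∀ u v w, m1 u v = 1 → dd m1 u w ≤ dd m1 v w + 1 := by decide +kernel
lemma a2 : ∀ u v, u ≠ v → ∃ w, m1 w v = 1 ∧ dd m1 u w + 1 = dd m1 u v := by decide +kernel
lemma b0 : ∀ u v, dd m2 u v = 0 ↔ u = v := by decide +kernel
lemma b1 : ∀ u v w, m2 u v = 1 → dd m2 u w ≤ dd m2 v w + 1 := by decide +kernel
lemma b2 : ∀ u v, u ≠ v → ∃ w, m2 w v = 1 ∧ dd m2 u w + 1 = dd m2 u v := by decide +kernel
lemma diag1 : ∀ u, m1 u u = 2 := by decide +kernel
lemma diag2 : ∀ u, m2 u u = 2 := by decide +kernel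
lemma ab : ∀ u v, ∑ w, fa u w * fb w v = 216 * (m1 u v : ℤ) := by decide +kernel
lemma ba : ∀ u v, ∑ w, fb u w * fa w v = 216 * (m2 u v : ℤ) := by decide +kernel
lemma row1 : ∀ u, ∑ v, dd m1 u v = 28 := by decide +kernel
lemma row2 : ∑ v, dd m2 0 v = 40 := by decide +kernel

lemma dist1 (u v : Fin 20) : G1.dist u v = dd m1 u v := dist_eq G1 _ a0 a1 a2 u v
lemma dist2 (u v : Fin 20) : G2.dist u v = dd m2 u v := dist_eq G2 _ b0 b1 b2 u v

/-- First factor as a real matrix. -/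
noncomputable def mA : Matrix (Fin 20) (Fin 20) ℝ := Matrix.of fun u v => (fa u v : ℝ) / 216

/-- Second factor as a real matrix. -/
noncomputable def mB : Matrix (Fin 20) (Fin 20) ℝ := Matrix.of fun u v => (fb u v : ℝ)

lemma D1_eq : distMatrix G1 = mA * mB - Matrix.scalar (Fin 20) 2 := by
  ext u v
  have h : ∑ w, (fa u w : ℝ) * (fb w v : ℝ) = 216 * (m1 u v : ℝ) := by exact_mod_cast ab u v
  have h' : (mA * mB) u v = m1 u v := by
    simp only [Matrix.mul_apply, mA, mB, Matrix.of_apply, div_mul_eq_mul_div]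
    rw [← Finset.sum_div, h]; ring
  rw [Matrix.sub_apply, h']
  by_cases huv : u = v
  · subst huv; simp [distMatrix, diag1]
  · simp [distMatrix, dist1, dd, huv]

lemma D2_eq : distMatrix G2 = mB * mA - Matrix.scalar (Fin 20) 2 := by
  ext u v
  have h : ∑ w, (fb u w : ℝ) * (fa w v : ℝ) = 216 * (m2 u v : ℝ) := by exact_mod_cast ba u v
  have h' : (mB * mA) u v = m2 u v := by
    simp only [Matrix.mul_apply, mA, mB, Matrix.of_apply, ← mul_div_assoc]
    rw [← Finset.sum_div, h]; ring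
  rw [Matrix.sub_apply, h']
  by_cases huv : u = v
  · subst huv; simp [distMatrix, diag2]
  · simp [distMatrix, dist2, dd, huv]

lemma cospectral : (distMatrix G1).charpoly = (distMatrix G2).charpoly := by
  rw [D1_eq, D2_eq, Matrix.charpoly_sub_scalar, Matrix.charpoly_sub_scalar,
    Matrix.charpoly_mul_comm]

lemma mulVec1 : distMatrix G1 *ᵥ 1 = (28 : ℝ) • (1 : Fin 20 → ℝ) := by
  ext u
  have h : ∑ v, (dd m1 u v : ℝ) = 28 := by exact_mod_cast row1 u
  simp [Matrix.mulVec, dotProduct, distMatrix, dist1, h]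

lemma mulVec2 : distMatrix G2 *ᵥ 1 ≠ (28 : ℝ) • (1 : Fin 20 → ℝ) := by
  intro h0
  have h1 := congrFun h0 0
  have h : ∑ v, (dd m2 0 v : ℝ) = 40 := by exact_mod_cast row2
  simp [Matrix.mulVec, dotProduct, distMatrix, dist2, h] at h1

lemma greatest1 : IsGreatest (spectrum ℝ (distMatrix G1)) 28 := by
  constructor
  · rw [← Matrix.spectrum_toLin', ← Module.End.hasEigenvalue_iff_mem_spectrum]
    refine Module.End.hasEigenvalue_of_hasEigenvector (x := 1) ⟨?_, one_ne_zero⟩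
    rw [Module.End.mem_eigenspace_iff, Matrix.toLin'_apply, mulVec1]
  · intro μ hμ
    rw [← Matrix.spectrum_toLin', ← Module.End.hasEigenvalue_iff_mem_spectrum] at hμ
    obtain ⟨k, hk⟩ := eigenvalue_mem_ball hμ
    have h : ∑ v, (dd m1 k v : ℝ) = 28 := by exact_mod_cast row1 k
    have hkk : distMatrix G1 k k = 0 := by simp [distMatrix]
    have hs : ∑ j ∈ Finset.univ.erase k, ‖distMatrix G1 k j‖ ≤ 28 := by
      rw [← h]
      refine le_trans (Finset.sum_le_sum_of_subset_of_nonneg (Finset.erase_subset _ _)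
        fun _ _ _ => norm_nonneg _) (le_of_eq ?_)
      simp [distMatrix, dist1]
    rw [hkk, Metric.mem_closedBall, dist_zero_right, Real.norm_eq_abs] at hk
    exact (le_abs_self μ).trans (hk.trans hs)

/-- The two graphs on 20 vertices given by the tables `m1`, `m2` are connected, their distance
matrices have the same characteristic polynomial and largest eigenvalue `28`, and the all-ones
vector is an eigenvector for `28` of the first distance matrix but not of the second. -/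
theorem result : ∃ Γ Ω : SimpleGraph (Fin 20),
    (∀ u v, Γ.Adj u v ↔ m1 u v = 1) ∧ (∀ u v, Ω.Adj u v ↔ m2 u v = 1) ∧
    Γ.Connected ∧ Ω.Connected ∧
    (distMatrix Γ).charpoly = (distMatrix Ω).charpoly ∧
    IsGreatest (spectrum ℝ (distMatrix Γ)) 28 ∧ IsGreatest (spectrum ℝ (distMatrix Ω)) 28 ∧
    distMatrix Γ *ᵥ 1 = (28 : ℝ) • (1 : Fin 20 → ℝ) ∧
    distMatrix Ω *ᵥ 1 ≠ (28 : ℝ) • (1 : Fin 20 → ℝ) := by
  refine ⟨G1, G2, fun _ _ => Iff.rfl, fun _ _ => Iff.rfl, connected_of G1 _ a0 a2,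
    connected_of G2 _ b0 b2, cospectral, greatest1, ?_, mulVec1, mulVec2⟩
  have h : spectrum ℝ (distMatrix G2) = spectrum ℝ (distMatrix G1) := by
    ext r
    rw [Matrix.mem_spectrum_iff_isRoot_charpoly, Matrix.mem_spectrum_iff_isRoot_charpoly,
      cospectral]
  rw [h]
  exact greatest1

end Pool.Agent.Results.MP_e517fb_co.CospectralPair
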